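import Mathlib
import Pool.Agent.CA31.Closure

/-!
# Adding a stable set

If every vertex outside a stable set `S` lies in a graph satisfying Hadwiger's conjecture, the whole
graph satisfies the off-by-one form.
-/

set_option autoImplicit false

namespace Pool.Agent.CA90

open Pool.Agent.CA31 Pool.Agent.CA31C

/-- colouring the stable set `S` with one more colour -/
theorem stable_add {V : Type} {G : SimpleGraph V} {S : Set V} (hS : ∀ a ∈ S, ∀ b ∈ S, ¬ G.Adj a b)
    {k : ℕ} (h : ¬ G.Colorable (k + 1)) : ¬ (G.induce Sᶜ).Colorable k := by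
  classical
  rintro ⟨c⟩
  refine h ⟨SimpleGraph.Coloring.mk
    (fun v => if hv : v ∈ S then Fin.last k else (c ⟨v, hv⟩).castSucc) ?_⟩
  intro a b hab
  by_cases ha : a ∈ S <;> by_cases hb : b ∈ S
  · exact absurd hab (hS a ha b hb)
  · simp only [dif_pos ha, dif_neg hb]
    exact fun e => (Fin.castSucc_lt_last (c ⟨b, hb⟩)).ne e.symm
  · simp only [dif_pos hb, dif_neg ha]
    exact fun e => (Fin.castSucc_lt_last (c ⟨a, ha⟩)).ne e
  · simp only [dif_neg ha, dif_neg hb]
    intro e
    have := Fin.castSucc_injective k e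
    exact c.valid (v := ⟨a, ha⟩) (w := ⟨b, hb⟩) hab this

/-- if the graph without a stable set `S` satisfies Hadwiger's conjecture then the graph satisfies the
off-by-one form -/
theorem q1_of_stable {V : Type} {G : SimpleGraph V} {S : Set V}
    (hS : ∀ a ∈ S, ∀ b ∈ S, ¬ G.Adj a b)
    (hH : ∀ k, ¬ (G.induce Sᶜ).Colorable k → HasMinor (G.induce Sᶜ) (k + 1))
    {k : ℕ} (h : ¬ G.Colorable k) : HasMinor G k := by
  rcases k with _ | k
  · exact hasMinor_zero
  · exact hasMinor_of_induce (hH k (stable_add hS h))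

end Pool.Agent.CA90
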